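import Mathlib
import Pool.Agent.P07.DGRPrimitive

/-!
# Permutation groups in DGR but not in BGR

A finite permutation group which is the automorphism group of a coloured digraph fails to be the
automorphism group of a coloured hypergraph exactly when it contains a cycle of length 3, 4 or 5
whose support is a block on which the group acts as the powers of that cycle. In particular the
only primitive such groups are the regular cyclic groups of order 3 and 5.
-/

namespace Pool.Agent.Results.MP_c04211_al.CycleCriterion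

open Equiv Pool.Agent.P07.DGRCore

/-- The permutation group `A` on `V` belongs to `DGR`: it consists exactly of the automorphisms of
some coloured digraph on `V`, a colouring of the ordered pairs of distinct points (the values of
`c` on the diagonal are never used). -/
def DGR {V : Type} (A : Subgroup (Equiv.Perm V)) : Prop :=
  ∃ (C : Type) (c : V → V → C), ∀ σ : Equiv.Perm V,
    σ ∈ A ↔ ∀ x y : V, x ≠ y → c (σ x) (σ y) = c x y

/-- The permutation group `A` on `V` belongs to `BGR`: it consists exactly of the automorphisms of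
some coloured hypergraph on `V`, a colouring of all the subsets of `V`. -/
def BGR {V : Type} (A : Subgroup (Equiv.Perm V)) : Prop :=
  ∃ (C : Type) (f : Set V → C), ∀ σ : Equiv.Perm V, σ ∈ A ↔ ∀ U : Set V, f (σ '' U) = f U

/-- A group in `DGR` contains every permutation acting on each pair like one of its elements. -/
lemma DGR.two_closed {V : Type} {A : Subgroup (Equiv.Perm V)} (hA : DGR A) (g : Equiv.Perm V)
    (hg : ∀ u v, u ≠ v → ∃ a ∈ A, a u = g u ∧ a v = g v) : g ∈ A := by
  obtain ⟨C, c, hc⟩ := hA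
  rw [hc]
  intro x y hxy
  obtain ⟨a, ha, h1, h2⟩ := hg x y hxy
  rw [← h1, ← h2]
  exact (hc a).mp ha x y hxy

/-- If `A` is not in `BGR` then some permutation outside `A` lies in its set-closure. -/
lemma exists_setClosed_of_not_BGR {V : Type} {A : Subgroup (Equiv.Perm V)} (hA : ¬ BGR A) :
    ∃ g : Equiv.Perm V, g ∉ A ∧ SetClosed A g := by
  by_contra hcon
  push Not at hcon
  apply hA
  refine ⟨Set (Set V), fun U => {W | ∃ a ∈ A, a '' U = W}, fun σ => ⟨fun hσ U => ?_, fun h => ?_⟩⟩
  · ext W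
    constructor
    · rintro ⟨a, ha, rfl⟩
      exact ⟨a * σ, mul_mem ha hσ, by rw [Perm.coe_mul, Set.image_comp]⟩
    · rintro ⟨a, ha, rfl⟩
      refine ⟨a * σ⁻¹, mul_mem ha (inv_mem hσ), ?_⟩
      rw [← Set.image_comp, ← Perm.coe_mul]
      simp
  · by_contra hσ
    apply hcon σ hσ
    intro U
    have h2 : ({W | ∃ a ∈ A, a '' (σ '' U) = W} : Set (Set V)) = {W | ∃ a ∈ A, a '' U = W} :=
      h U
    have h1 : σ '' U ∈ ({W | ∃ a ∈ A, a '' U = W} : Set (Set V)) := by
      rw [← h2]
      exact ⟨1, one_mem _, by simp⟩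
    exact h1

/-- Membership of the reflection of a short cycle contradicts `BGR`. -/
lemma not_BGR_of_cycle {V : Type} [Fintype V] [DecidableEq V] {A : Subgroup (Equiv.Perm V)}
    (h : ∃ ρ ∈ A, ρ.IsCycle ∧
      (ρ.support.card = 3 ∨ ρ.support.card = 4 ∨ ρ.support.card = 5) ∧
      ∀ a ∈ A, (∃ x ∈ ρ.support, a x ∈ ρ.support) → ∃ i : ℤ, ∀ x ∈ ρ.support, a x = (ρ ^ i) x) :
    ¬ BGR A := by
  obtain ⟨ρ, hρA, hρ, hcard, hstar⟩ := h
  rintro ⟨C, f, hf⟩
  obtain ⟨g, hg1, hg2, hg3⟩ := exists_reflection ρ hρ hcard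
  apply hg3
  apply hstar g _ hg2
  rw [hf]
  intro U
  obtain ⟨j, hj⟩ := hg1 U
  rw [← hj]
  exact (hf _).mp (zpow_mem hρA j) U

/-- Let `A` be a permutation group on a finite set `V` which lies in `DGR`. Then `A` is not in
`BGR` if and only if `A` contains a cycle `ρ` of length 3, 4 or 5 such that every element of `A`
mapping some point of the support of `ρ` into this support acts on the support as a power of `ρ`.
If moreover `A` is primitive and not in `BGR`, then `V` has 3 or 5 points and `A` is generated by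
a cycle moving all points of `V`. -/
theorem result (V : Type) [Fintype V] [DecidableEq V] (A : Subgroup (Equiv.Perm V))
    (hA : DGR A) :
    (¬ BGR A ↔ ∃ ρ ∈ A, ρ.IsCycle ∧
        (ρ.support.card = 3 ∨ ρ.support.card = 4 ∨ ρ.support.card = 5) ∧
        ∀ a ∈ A, (∃ x ∈ ρ.support, a x ∈ ρ.support) →
          ∃ i : ℤ, ∀ x ∈ ρ.support, a x = (ρ ^ i) x) ∧
    (MulAction.IsPreprimitive A V → ¬ BGR A →
      (Fintype.card V = 3 ∨ Fintype.card V = 5) ∧
        ∃ ρ : Equiv.Perm V, ρ.IsCycle ∧ ρ.support = Finset.univ ∧ A = Subgroup.zpowers ρ) := by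
  have main : ¬ BGR A → ∃ ρ ∈ A, ρ.IsCycle ∧
      (ρ.support.card = 3 ∨ ρ.support.card = 4 ∨ ρ.support.card = 5) ∧
      ∀ a ∈ A, (∃ x ∈ ρ.support, a x ∈ ρ.support) →
        ∃ i : ℤ, ∀ x ∈ ρ.support, a x = (ρ ^ i) x := by
    intro hB
    obtain ⟨g, hgA, hg⟩ := exists_setClosed_of_not_BGR hB
    have h1 : ∃ x y : V, x ≠ y ∧ ∀ a ∈ A, ¬ (a x = g x ∧ a y = g y) := by
      by_contra hcon
      push Not at hcon
      apply hgA
      apply hA.two_closed
      intro u v huv
      exact hcon u v huv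
    obtain ⟨x, y, hxy, hno⟩ := h1
    obtain ⟨b, hb, ⟨h2, h3⟩ | ⟨h2, h3⟩⟩ := hg.pair x y
    · exact absurd ⟨h2, h3⟩ (hno b hb)
    obtain ⟨a1, ha1, h4⟩ := hg.point x
    have hanti : ¬ R A x y y x := by
      rintro ⟨a, ha, h5, h6⟩
      refine hno (b * a) (mul_mem hb ha) ⟨?_, ?_⟩
      · rw [Perm.mul_apply, h5, h3]
      · rw [Perm.mul_apply, h6, h2]
    have hh : SetClosed A (a1⁻¹ * g) := hg.mul_left (inv_mem ha1)
    have hx : (a1⁻¹ * g) x = x := by
      rw [Perm.mul_apply, ← h4]
      simp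
    have hy : R A x y ((a1⁻¹ * g) y) x := by
      refine ⟨a1⁻¹ * b, mul_mem (inv_mem ha1) hb, ?_, ?_⟩
      · rw [Perm.mul_apply, Perm.mul_apply, h2]
      · rw [Perm.mul_apply, h3, ← h4]
        simp
    exact exists_cycle hA.two_closed hanti hh hx hy
  refine ⟨⟨main, not_BGR_of_cycle⟩, fun hprim hB => ?_⟩
  obtain ⟨ρ, hρA, hρ, hcard, hstar⟩ := main hB
  obtain ⟨h1, h2, h3⟩ := primitive_case hprim hρA hρ hcard hstar
  exact ⟨h2, ρ, hρ, h1, h3⟩

end Pool.Agent.Results.MP_c04211_al.CycleCriterion
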